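import Mathlib

/-! The model functions for orthogonal speeds. -/

open Set Filter

namespace Pool.Agent.MP_0641e2_an

/-- `c` vanishes at `0`, tends to infinity, is concave on `[0, ∞)`, and `exp (4 c)` is convex. -/
structure Adm (c : ℝ → ℝ) : Prop where
  zero : c 0 = 0
  top : Tendsto c atTop atTop
  conc : ConcaveOn ℝ (Ici 0) c
  conv : ConvexOn ℝ (Ici 0) fun t => Real.exp (4 * c t)

end Pool.Agent.MP_0641e2_an
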