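import Mathlib

/-! Semigroups of holomorphic self-maps of the unit disc. -/

open Set Filter Topology Metric

noncomputable section

namespace Pool.Agent.MP_0641e2_an

/-- A continuous one-parameter semigroup of holomorphic self-maps of the unit disc. -/
structure IsSemigroup (φ : ℝ → ℂ → ℂ) : Prop where
  holo : ∀ t, 0 ≤ t → DifferentiableOn ℂ (φ t) (ball 0 1)
  maps : ∀ t, 0 ≤ t → MapsTo (φ t) (ball 0 1) (ball 0 1)
  zero : ∀ z ∈ ball (0 : ℂ) 1, φ 0 z = z
  add : ∀ s t, 0 ≤ s → 0 ≤ t → ∀ z ∈ ball (0 : ℂ) 1, φ (t + s) z = φ t (φ s z)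
  cont : ∀ t, 0 ≤ t → TendstoLocallyUniformlyOn φ (φ t) (𝓝[Ici 0] t) (ball 0 1)

/-- All orbits tend to the point `τ` of the unit circle. -/
def IsDW (φ : ℝ → ℂ → ℂ) (τ : ℂ) : Prop :=
  ‖τ‖ = 1 ∧ ∀ z ∈ ball (0 : ℂ) 1, Tendsto (fun t => φ t z) atTop (𝓝 τ)

/-- The Cayley map of the disc onto the right half-plane that sends `τ` to infinity. -/
def cay (τ z : ℂ) : ℂ := (τ + z) / (τ - z)

/-- A univalent function that conjugates the semigroup to vertical translations. -/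
structure IsKoenigs (φ : ℝ → ℂ → ℂ) (h : ℂ → ℂ) : Prop where
  holo : DifferentiableOn ℂ h (ball 0 1)
  inj : InjOn h (ball 0 1)
  abel : ∀ t, 0 ≤ t → ∀ z ∈ ball (0 : ℂ) 1, h (φ t z) = h z + Complex.I * t

end Pool.Agent.MP_0641e2_an
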